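import Pool.Agent.W200.MR.Stm

open Finset Filter Topology

namespace Pool.Agent.W280.MR

open Pool.Agent.W200.MR

theorem smooth_mul {T a b : ℕ} (ha : Smooth T a) (hb : Smooth T b) : Smooth T (a * b) := by
  intro p hp hd
  rcases (Nat.Prime.dvd_mul hp).mp hd with h | h
  · exact ha p hp h
  · exact hb p hp h

theorem rough_mul {T a b : ℕ} (ha : Rough T a) (hb : Rough T b) : Rough T (a * b) := by
  intro p hp hd
  rcases (Nat.Prime.dvd_mul hp).mp hd with h | h
  · exact ha p hp h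
  · exact hb p hp h

theorem smooth_one (T : ℕ) : Smooth T 1 := by
  intro p hp hd
  exact absurd (Nat.dvd_one.mp hd) hp.one_lt.ne'

theorem rough_one (T : ℕ) : Rough T 1 := by
  intro p hp hd
  exact absurd (Nat.dvd_one.mp hd) hp.one_lt.ne'

/-- decomposition into rough and smooth parts -/
theorem decomp (T : ℕ) : ∀ n : ℕ, 1 ≤ n → ∃ r m : ℕ, n = r * m ∧ Rough T r ∧ Smooth T m ∧ 1 ≤ r ∧ 1 ≤ m := by
  intro n
  induction n using Nat.strong_induction_on with
  | _ n ih =>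
    intro hn
    by_cases h1 : n = 1
    · exact ⟨1, 1, by omega, rough_one T, smooth_one T, le_refl _, le_refl _⟩
    · have hp : n.minFac.Prime := Nat.minFac_prime h1
      obtain ⟨k, hk⟩ := Nat.minFac_dvd n
      have hkpos : 1 ≤ k := by
        rcases Nat.eq_zero_or_pos k with h | h
        · rw [h] at hk; omega
        · exact h
      have hkn : k < n := by
        have h2 := hp.two_le
        have : 2 * k ≤ n.minFac * k := Nat.mul_le_mul_right k h2
        omega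
      obtain ⟨r, m, e, hr, hm, hr1, hm1⟩ := ih k hkn hkpos
      by_cases hT : n.minFac < T
      · refine ⟨r, n.minFac * m, ?_, hr, ?_, hr1, ?_⟩
        · rw [Nat.mul_left_comm, ← e]; exact hk
        · apply smooth_mul _ hm
          intro q hq hd
          have := (Nat.prime_dvd_prime_iff_eq hq hp).mp hd
          omega
        · exact Nat.mul_pos hp.pos hm1
      · refine ⟨n.minFac * r, m, ?_, ?_, hm, ?_, hm1⟩
        · rw [Nat.mul_assoc, ← e]; exact hk
        · apply rough_mul _ hr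
          intro q hq hd
          have := (Nat.prime_dvd_prime_iff_eq hq hp).mp hd
          omega
        · exact Nat.mul_pos hp.pos hr1

theorem coprime_rs {T r m : ℕ} (hr : Rough T r) (hm : Smooth T m) : Nat.Coprime r m := by
  apply Nat.Coprime.symm
  rw [Nat.coprime_iff_gcd_eq_one]
  by_contra h
  obtain ⟨p, hp, hd⟩ := Nat.exists_prime_and_dvd h
  have h1 := hm p hp (dvd_trans hd (Nat.gcd_dvd_left _ _))
  have h2 := hr p hp (dvd_trans hd (Nat.gcd_dvd_right _ _))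
  omega

theorem rough_ge {T r : ℕ} (hr : Rough T r) (h1 : r ≠ 1) (h0 : 1 ≤ r) : T ≤ r := by
  have hp : r.minFac.Prime := Nat.minFac_prime h1
  exact (hr _ hp (Nat.minFac_dvd r)).trans (Nat.minFac_le h0)

open Classical in
/-- smooth numbers up to y -/
noncomputable def Sm (T y : ℕ) : Finset ℕ := (Icc 1 y).filter (fun m => Smooth T m)

theorem PA_le (T N : ℕ) : PA T N ≤ ∑ r ∈ Icc T N, (Sm T (N / r)).card ^ 2 := by
  classical
  have hsub : (((Icc 1 N) ×ˢ (Icc 1 N)).filter (fun q : ℕ × ℕ =>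
      ¬ Smooth T q.1 ∧ ¬ Smooth T q.2 ∧
        ∃ u v : ℕ, 1 ≤ u ∧ 1 ≤ v ∧ Smooth T u ∧ Smooth T v ∧ u * q.1 = v * q.2)) ⊆
      (Icc T N).biUnion (fun r => ((Sm T (N / r)) ×ˢ (Sm T (N / r))).image (fun q : ℕ × ℕ => (r * q.1, r * q.2))) := by
    rintro ⟨n, n'⟩ hq
    simp only [Finset.mem_filter, Finset.mem_product, Finset.mem_Icc] at hq
    obtain ⟨⟨⟨hn1, hnN⟩, ⟨hn1', hnN'⟩⟩, hns, hns', u, v, hu1, hv1, hu, hv, he⟩ := hq
    obtain ⟨r, m, e, hr, hm, hr1, hm1⟩ := decomp T n hn1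
    obtain ⟨r', m', e', hr', hm', hr1', hm1'⟩ := decomp T n' hn1'
    have hrr : r = r' := by
      apply Nat.dvd_antisymm
      · have hc : Nat.Coprime r (v * m') := coprime_rs hr (smooth_mul hv hm')
        have hd : r ∣ r' * (v * m') := by
          refine ⟨u * m, ?_⟩
          rw [e, e'] at he
          calc r' * (v * m') = v * (r' * m') := by ring
            _ = u * (r * m) := he.symm
            _ = r * (u * m) := by ring
        exact hc.dvd_of_dvd_mul_right hd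
      · have hc : Nat.Coprime r' (u * m) := coprime_rs hr' (smooth_mul hu hm)
        have hd : r' ∣ r * (u * m) := by
          refine ⟨v * m', ?_⟩
          rw [e, e'] at he
          calc r * (u * m) = u * (r * m) := by ring
            _ = v * (r' * m') := he
            _ = r' * (v * m') := by ring
        exact hc.dvd_of_dvd_mul_right hd
    subst hrr
    have hrne : r ≠ 1 := by
      intro h
      apply hns
      rw [e, h, one_mul]; exact hm
    have hTr := rough_ge hr hrne hr1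
    have hrN : r ≤ N := by
      have : r * 1 ≤ r * m := Nat.mul_le_mul_left r hm1
      omega
    rw [Finset.mem_biUnion]
    refine ⟨r, Finset.mem_Icc.mpr ⟨hTr, hrN⟩, ?_⟩
    rw [Finset.mem_image]
    refine ⟨(m, m'), ?_, ?_⟩
    · rw [Finset.mem_product]
      constructor
      · show m ∈ Sm T (N / r)
        unfold Sm
        rw [Finset.mem_filter, Finset.mem_Icc]
        refine ⟨⟨hm1, ?_⟩, hm⟩
        rw [Nat.le_div_iff_mul_le hr1, Nat.mul_comm]
        omega
      · show m' ∈ Sm T (N / r)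
        unfold Sm
        rw [Finset.mem_filter, Finset.mem_Icc]
        refine ⟨⟨hm1', ?_⟩, hm'⟩
        rw [Nat.le_div_iff_mul_le hr1, Nat.mul_comm]
        omega
    · show (r * m, r * m') = (n, n')
      rw [e, e']
  have h1 : PA T N ≤ ((Icc T N).biUnion (fun r => ((Sm T (N / r)) ×ˢ (Sm T (N / r))).image (fun q : ℕ × ℕ => (r * q.1, r * q.2)))).card := by
    unfold PA
    convert Finset.card_le_card hsub
  refine le_trans h1 (le_trans Finset.card_biUnion_le ?_)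
  apply Finset.sum_le_sum
  intro r _
  refine le_trans Finset.card_image_le ?_
  rw [Finset.card_product, sq]

theorem card_sq_le (K : Finset ℕ) : (∀ k ∈ K, 1 ≤ k) → K.card ^ 2 ≤ 2 * ∑ k ∈ K, k := by
  induction K using Finset.induction_on_max with
  | empty => intro _; simp
  | insert a K hmax ih =>
    intro h
    have hK : ∀ k ∈ K, 1 ≤ k := fun k hk => h k (Finset.mem_insert_of_mem hk)
    have ha : a ∉ K := fun hk => lt_irrefl _ (hmax a hk)
    have ih' := ih hK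
    have ha1 : 1 ≤ a := h a (Finset.mem_insert_self _ _)
    have hsub : K ⊆ Icc 1 (a - 1) := by
      intro k hk
      have h1 := hmax k hk
      have h2 := hK k hk
      rw [Finset.mem_Icc]; omega
    have hc : K.card ≤ a - 1 := by
      have := Finset.card_le_card hsub
      rw [Nat.card_Icc] at this
      omega
    rw [Finset.card_insert_of_notMem ha, Finset.sum_insert ha]
    have : (K.card + 1) ^ 2 = K.card ^ 2 + 2 * K.card + 1 := by ring
    rw [this]
    omega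

theorem inv3 (L k : ℕ) (hL : 1 ≤ L) : ∑ N ∈ Finset.Ico L (L + k), (1 : ℝ) / (N : ℝ) ^ 3 ≤ 2 / (L : ℝ) ^ 2 - 2 / ((L : ℝ) + k) ^ 2 := by
  induction k with
  | zero => simp
  | succ k ih =>
    rw [← Nat.add_assoc, Finset.sum_Ico_succ_top (by omega)]
    have hx : (1 : ℝ) ≤ (L : ℝ) + k := by
      have : (1 : ℝ) ≤ (L : ℝ) := by exact_mod_cast hL
      have h2 : (0 : ℝ) ≤ (k : ℝ) := Nat.cast_nonneg k
      linarith
    have key : (1 : ℝ) / (((L + k : ℕ) : ℝ)) ^ 3 ≤ 2 / ((L : ℝ) + k) ^ 2 - 2 / ((L : ℝ) + (k + 1 : ℕ)) ^ 2 := by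
      push_cast
      set x : ℝ := (L : ℝ) + k with hxd
      have e : (L : ℝ) + (k + 1) = x + 1 := by rw [hxd]; ring
      rw [e]
      have hx0 : 0 < x := by linarith
      rw [div_sub_div _ _ (by positivity) (by positivity), div_le_div_iff₀ (by positivity) (by positivity)]
      nlinarith [mul_pos hx0 hx0, mul_pos (mul_pos hx0 hx0) hx0, pow_pos hx0 4, pow_pos hx0 5, sq_nonneg (x-1)]
    linarith

theorem inv2 (L k : ℕ) (hL : 1 ≤ L) : ∑ N ∈ Finset.Ico L (L + k), (1 : ℝ) / (N : ℝ) ^ 2 ≤ 2 / (L : ℝ) - 2 / ((L : ℝ) + k) := by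
  induction k with
  | zero => simp
  | succ k ih =>
    rw [← Nat.add_assoc, Finset.sum_Ico_succ_top (by omega)]
    have hx : (1 : ℝ) ≤ (L : ℝ) + k := by
      have : (1 : ℝ) ≤ (L : ℝ) := by exact_mod_cast hL
      have h2 : (0 : ℝ) ≤ (k : ℝ) := Nat.cast_nonneg k
      linarith
    have key : (1 : ℝ) / (((L + k : ℕ) : ℝ)) ^ 2 ≤ 2 / ((L : ℝ) + k) - 2 / ((L : ℝ) + (k + 1 : ℕ)) := by
      push_cast
      set x : ℝ := (L : ℝ) + k with hxd
      have e : (L : ℝ) + (k + 1) = x + 1 := by rw [hxd]; ring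
      rw [e]
      have hx0 : 0 < x := by linarith
      rw [div_sub_div _ _ (by positivity) (by positivity), div_le_div_iff₀ (by positivity) (by positivity)]
      nlinarith [mul_pos hx0 hx0, mul_pos (mul_pos hx0 hx0) hx0]
    linarith

theorem mem_Sm {T y m : ℕ} : m ∈ Sm T y ↔ (1 ≤ m ∧ m ≤ y) ∧ Smooth T m := by
  classical
  simp only [Sm, Finset.mem_filter, Finset.mem_Icc]

theorem step1 (T N X : ℕ) (hT : 2 ≤ T) (hN : N ≤ X) :
    (PA T N : ℝ) ≤ ∑ r ∈ Icc T X, ∑ m ∈ Sm T X, (if r * m ≤ N then 2 * (m : ℝ) else 0) := by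
  classical
  have h1 : (PA T N : ℝ) ≤ ((∑ r ∈ Icc T N, (Sm T (N / r)).card ^ 2 : ℕ) : ℝ) := by
    exact_mod_cast PA_le T N
  refine le_trans h1 ?_
  have h2 : (∑ r ∈ Icc T N, (Sm T (N / r)).card ^ 2 : ℕ) ≤ ∑ r ∈ Icc T N, 2 * ∑ m ∈ Sm T (N / r), m := by
    apply Finset.sum_le_sum
    intro r _
    exact card_sq_le _ (fun k hk => (mem_Sm.mp hk).1.1)
  have h3 : ((∑ r ∈ Icc T N, (Sm T (N / r)).card ^ 2 : ℕ) : ℝ) ≤ ((∑ r ∈ Icc T N, 2 * ∑ m ∈ Sm T (N / r), m : ℕ) : ℝ) := by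
    exact_mod_cast h2
  refine le_trans h3 ?_
  push_cast
  have h4 : ∀ r ∈ Icc T N, (2 : ℝ) * ∑ m ∈ Sm T (N / r), (m : ℝ) ≤
      ∑ m ∈ Sm T X, (if r * m ≤ N then 2 * (m : ℝ) else 0) := by
    intro r hr
    rw [Finset.mem_Icc] at hr
    rw [Finset.mul_sum, ← Finset.sum_filter]
    apply Finset.sum_le_sum_of_subset_of_nonneg
    · intro m hm
      rw [mem_Sm] at hm
      rw [Finset.mem_filter]
      rw [mem_Sm]
      have h5 : m * r ≤ N := (Nat.le_div_iff_mul_le (by omega)).mp hm.1.2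
      refine ⟨⟨⟨hm.1.1, ?_⟩, hm.2⟩, ?_⟩
      · have : m * 1 ≤ m * r := Nat.mul_le_mul_left m (by omega)
        omega
      · rw [Nat.mul_comm]; exact h5
    · intro m _ _
      positivity
  refine le_trans (Finset.sum_le_sum h4) ?_
  apply Finset.sum_le_sum_of_subset_of_nonneg
  · intro r hr
    rw [Finset.mem_Icc] at hr ⊢
    omega
  · intro r _ _
    apply Finset.sum_nonneg
    intro m _
    split_ifs
    · positivity
    · exact le_refl _

theorem tail3 (T X L : ℕ) (hL : 1 ≤ L) :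
    ∑ N ∈ Icc T X, (if L ≤ N then (1 : ℝ) / (N : ℝ) ^ 3 else 0) ≤ 2 / (L : ℝ) ^ 2 := by
  rw [← Finset.sum_filter]
  have h1 : ∑ N ∈ (Icc T X).filter (fun N => L ≤ N), (1 : ℝ) / (N : ℝ) ^ 3 ≤
      ∑ N ∈ Finset.Ico L (L + (X + 1)), (1 : ℝ) / (N : ℝ) ^ 3 := by
    apply Finset.sum_le_sum_of_subset_of_nonneg
    · intro N hN
      rw [Finset.mem_filter, Finset.mem_Icc] at hN
      rw [Finset.mem_Ico]
      omega
    · intro N _ _
      positivity
  refine le_trans h1 (le_trans (inv3 L (X + 1) hL) ?_)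
  have : (0 : ℝ) ≤ 2 / ((L : ℝ) + ((X + 1 : ℕ) : ℝ)) ^ 2 := by positivity
  linarith

theorem tail2 (T X : ℕ) (hT : 1 ≤ T) : ∑ r ∈ Icc T X, (1 : ℝ) / (r : ℝ) ^ 2 ≤ 2 / (T : ℝ) := by
  have h1 : ∑ r ∈ Icc T X, (1 : ℝ) / (r : ℝ) ^ 2 ≤ ∑ r ∈ Finset.Ico T (T + (X + 1)), (1 : ℝ) / (r : ℝ) ^ 2 := by
    apply Finset.sum_le_sum_of_subset_of_nonneg
    · intro N hN
      rw [Finset.mem_Icc] at hN
      rw [Finset.mem_Ico]
      omega
    · intro N _ _
      positivity
  refine le_trans h1 (le_trans (inv2 T (X + 1) hT) ?_)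
  have : (0 : ℝ) ≤ 2 / ((T : ℝ) + ((X + 1 : ℕ) : ℝ)) := by positivity
  linarith

theorem t_PAIR : S_SM → S_PAIR := by
  intro hSM
  refine ⟨32, by norm_num, ?_⟩
  intro T X hT
  have hT0 : (0 : ℝ) < (T : ℝ) := by
    have : 0 < T := by omega
    exact_mod_cast this
  -- swap
  have h1 : ∑ N ∈ Icc T X, (PA T N : ℝ) / (N : ℝ) ^ 3 ≤
      ∑ N ∈ Icc T X, ∑ r ∈ Icc T X, ∑ m ∈ Sm T X,
        2 * (m : ℝ) * (if r * m ≤ N then (1 : ℝ) / (N : ℝ) ^ 3 else 0) := by
    apply Finset.sum_le_sum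
    intro N hN
    rw [Finset.mem_Icc] at hN
    have hN0 : (0 : ℝ) < (N : ℝ) ^ 3 := by
      have : 0 < N := by omega
      have : (0 : ℝ) < (N : ℝ) := by exact_mod_cast this
      positivity
    rw [div_le_iff₀ hN0]
    refine le_trans (step1 T N X hT hN.2) (le_of_eq ?_)
    rw [Finset.sum_mul]
    apply Finset.sum_congr rfl
    intro r _
    rw [Finset.sum_mul]
    apply Finset.sum_congr rfl
    intro m _
    split_ifs
    · rw [mul_assoc, one_div, inv_mul_cancel₀ hN0.ne', mul_one]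
    · simp
  refine le_trans h1 ?_
  rw [Finset.sum_comm]
  have h2 : ∀ r ∈ Icc T X, ∑ N ∈ Icc T X, ∑ m ∈ Sm T X,
        2 * (m : ℝ) * (if r * m ≤ N then (1 : ℝ) / (N : ℝ) ^ 3 else 0) ≤
        (1 : ℝ) / (r : ℝ) ^ 2 * (4 * ∑ m ∈ Sm T X, (1 : ℝ) / (m : ℝ)) := by
    intro r hr
    rw [Finset.mem_Icc] at hr
    rw [Finset.sum_comm, Finset.mul_sum, Finset.mul_sum]
    apply Finset.sum_le_sum
    intro m hm
    rw [mem_Sm] at hm
    rw [← Finset.mul_sum]
    have hr1 : 1 ≤ r := by omega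
    have hm1 : 1 ≤ m := hm.1.1
    have ht := tail3 T X (r * m) (Nat.mul_pos hr1 hm1)
    have hr0 : (0 : ℝ) < (r : ℝ) := by exact_mod_cast hr1
    have hm0 : (0 : ℝ) < (m : ℝ) := by exact_mod_cast hm1
    calc 2 * (m : ℝ) * ∑ N ∈ Icc T X, (if r * m ≤ N then (1 : ℝ) / (N : ℝ) ^ 3 else 0)
        ≤ 2 * (m : ℝ) * (2 / ((r * m : ℕ) : ℝ) ^ 2) := mul_le_mul_of_nonneg_left ht (by positivity)
      _ = (1 : ℝ) / (r : ℝ) ^ 2 * (4 * ((1 : ℝ) / (m : ℝ))) := by
          push_cast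
          field_simp
          ring
  refine le_trans (Finset.sum_le_sum h2) ?_
  rw [← Finset.sum_mul]
  have h3 : ∑ m ∈ Sm T X, (1 : ℝ) / (m : ℝ) ≤ 4 * Real.sqrt T :=
    hSM T (Sm T X) (by omega) (fun k hk => ⟨(mem_Sm.mp hk).1.1, (mem_Sm.mp hk).2⟩)
  have h4 := tail2 T X (by omega : 1 ≤ T)
  have h5 : (0 : ℝ) ≤ ∑ m ∈ Sm T X, (1 : ℝ) / (m : ℝ) := Finset.sum_nonneg (fun m _ => by positivity)
  have hs : 0 < Real.sqrt T := Real.sqrt_pos.mpr hT0
  calc (∑ r ∈ Icc T X, (1 : ℝ) / (r : ℝ) ^ 2) * (4 * ∑ m ∈ Sm T X, (1 : ℝ) / (m : ℝ))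
      ≤ (2 / (T : ℝ)) * (4 * (4 * Real.sqrt T)) := by
        apply mul_le_mul h4 _ (by positivity) (by positivity)
        linarith
    _ = 32 / Real.sqrt T := by
        have hsq : Real.sqrt T * Real.sqrt T = T := Real.mul_self_sqrt hT0.le
        rw [eq_div_iff hs.ne']
        calc 2 / (T : ℝ) * (4 * (4 * Real.sqrt T)) * Real.sqrt T = 32 * (Real.sqrt T * Real.sqrt T) / T := by ring
          _ = 32 := by rw [hsq]; field_simp

end Pool.Agent.W280.MR
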